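import Pool.Agent.Q210.UQ.Base

/-! # The egg yolk principle and surjectivity -/

set_option autoImplicit false

open Metric Set MeasureTheory Filter Topology
open Pool.Agent.Q130.UQ

namespace Pool.Agent.Q210.UQ

lemma det_smul_id (D : ℕ) (t : ℝ) : (t • ContinuousLinearMap.id ℝ (V D)).det = t ^ D := by
  show LinearMap.det ((t • ContinuousLinearMap.id ℝ (V D) : V D →L[ℝ] V D) : V D →ₗ[ℝ] V D) = t ^ D
  have e : ((t • ContinuousLinearMap.id ℝ (V D) : V D →L[ℝ] V D) : V D →ₗ[ℝ] V D) = t • LinearMap.id := rfl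
  rw [e, LinearMap.det_smul, LinearMap.det_id, mul_one, finrank_euclideanSpace_fin]

/-- conformal invariance: the energy in one shell -/
lemma shell {D : ℕ} {η : ENNReal}
    (hη : ∀ u : V D → ℝ, ContDiff ℝ 1 u →
      (∀ t ∈ Icc (1 : ℝ) 2, (∃ a, ‖a‖ = t ∧ u a = 0) ∧ ∃ b, ‖b‖ = t ∧ u b = 1) →
      η ≤ ∫⁻ w in {w | 1 / 2 < ‖w‖ ∧ ‖w‖ < 4}, ENNReal.ofReal (‖fderiv ℝ u w‖ ^ D))
    {u : V D → ℝ} (hu : ContDiff ℝ 1 u) (c : V D) {r : ℝ} (hr : 0 < r)
    (h : ∀ t ∈ Icc (2 * r) (4 * r), (∃ a, ‖a - c‖ = t ∧ u a = 0) ∧ ∃ b, ‖b - c‖ = t ∧ u b = 1) :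
    η ≤ ∫⁻ w in {w | r < ‖w - c‖ ∧ ‖w - c‖ < 8 * r}, ENNReal.ofReal (‖fderiv ℝ u w‖ ^ D) := by
  have h2r : 0 < 2 * r := by positivity
  set f : V D → V D := fun w => c + (2 * r) • w with hf
  have hfd : ∀ w, HasFDerivAt f ((2 * r) • ContinuousLinearMap.id ℝ (V D)) w := by
    intro w
    exact ((hasFDerivAt_id w).const_smul (2 * r)).const_add c
  set v : V D → ℝ := fun w => u (f w) with hv
  have hvc : ContDiff ℝ 1 v := hu.comp (by fun_prop)
  have h1 := hη v hvc (by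
    intro t ht
    obtain ⟨⟨a, ha1, ha2⟩, b, hb1, hb2⟩ := h ((2 * r) * t) ⟨by nlinarith [ht.1], by nlinarith [ht.2]⟩
    have key : ∀ x : V D, ‖x - c‖ = (2 * r) * t → ‖(2 * r)⁻¹ • (x - c)‖ = t ∧ f ((2 * r)⁻¹ • (x - c)) = x := by
      intro x hx
      constructor
      · rw [norm_smul, hx, norm_inv, Real.norm_eq_abs, abs_of_pos h2r]
        field_simp
      · simp only [hf]
        rw [smul_smul, mul_inv_cancel₀ h2r.ne', one_smul]
        abel
    refine ⟨⟨_, (key a ha1).1, ?_⟩, _, (key b hb1).1, ?_⟩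
    · simp only [hv]; rw [(key a ha1).2]; exact ha2
    · simp only [hv]; rw [(key b hb1).2]; exact hb2)
  refine h1.trans ?_
  have hA : MeasurableSet {w : V D | 1 / 2 < ‖w‖ ∧ ‖w‖ < 4} :=
    ((isOpen_lt continuous_const continuous_norm).inter (isOpen_lt continuous_norm continuous_const)).measurableSet
  have hinj : InjOn f {w : V D | 1 / 2 < ‖w‖ ∧ ‖w‖ < 4} := by
    intro x _ y _ hxy
    have : (2 * r) • x = (2 * r) • y := add_left_cancel hxy
    exact smul_right_injective _ h2r.ne' this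
  have h3 := lintegral_image_eq_lintegral_abs_det_fderiv_mul volume hA
    (fun x _ => (hfd x).hasFDerivWithinAt) hinj (fun z => ENNReal.ofReal (‖fderiv ℝ u z‖ ^ D))
  have h4 : ∀ w, ENNReal.ofReal (‖fderiv ℝ v w‖ ^ D) =
      ENNReal.ofReal |((2 * r) • ContinuousLinearMap.id ℝ (V D)).det| *
        ENNReal.ofReal (‖fderiv ℝ u (f w)‖ ^ D) := by
    intro w
    have h5 : HasFDerivAt v ((fderiv ℝ u (f w)).comp ((2 * r) • ContinuousLinearMap.id ℝ (V D))) w :=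
      ((hu.differentiable one_ne_zero) (f w)).hasFDerivAt.comp w (hfd w)
    rw [h5.fderiv, det_smul_id, ← ENNReal.ofReal_mul (abs_nonneg _), abs_of_pos (by positivity)]
    congr 1
    have h6 : (fderiv ℝ u (f w)).comp ((2 * r) • ContinuousLinearMap.id ℝ (V D)) = (2 * r) • fderiv ℝ u (f w) := by
      ext x
      simp
    rw [h6, norm_smul, Real.norm_eq_abs, abs_of_pos h2r, mul_pow]
  calc ∫⁻ w in {w | 1 / 2 < ‖w‖ ∧ ‖w‖ < 4}, ENNReal.ofReal (‖fderiv ℝ v w‖ ^ D)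
      = ∫⁻ x in f '' {w | 1 / 2 < ‖w‖ ∧ ‖w‖ < 4}, ENNReal.ofReal (‖fderiv ℝ u x‖ ^ D) := by
        rw [h3]
        exact lintegral_congr fun w => h4 w
    _ ≤ _ := by
        refine lintegral_mono_set ?_
        rintro _ ⟨w, ⟨hw1, hw2⟩, rfl⟩
        have e : ‖f w - c‖ = (2 * r) * ‖w‖ := by
          simp only [hf]
          rw [add_sub_cancel_left, norm_smul, Real.norm_eq_abs, abs_of_pos h2r]
        show r < ‖f w - c‖ ∧ ‖f w - c‖ < 8 * r
        rw [e]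
        constructor <;> nlinarith

theorem egg (D : ℕ) (_hD : 2 ≤ D) (h1 : SLoewner D) (h2 : STop D) (h3 : SEnergy D) : SEgg D := by
  intro K
  obtain ⟨η, hη0, hη⟩ := h1
  obtain ⟨M, hM, hen⟩ := h3 K
  obtain ⟨m, hm⟩ := ENNReal.exists_nat_mul_gt hη0.ne' hM.ne
  refine ⟨8 ^ (m + 1), by positivity, fun H H' hH w₀ hw₀ v hv => ?_⟩
  by_contra hcon
  rw [not_le] at hcon
  obtain ⟨u, hu, hu0, hu1, hue⟩ := hen H H' hH
  set R : ℝ := ‖w₀ - H 0‖ with hR
  have hR0 : 0 < R := by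
    rw [hR, norm_pos_iff, sub_ne_zero]
    rintro rfl
    exact hw₀ ⟨0, by simp, rfl⟩
  set S : ℕ → Set (V D) := fun i => {w | 8 ^ i * R < ‖w - H 0‖ ∧ ‖w - H 0‖ < 8 * (8 ^ i * R)} with hS
  have hnc : Continuous fun w : V D => ‖w - H 0‖ := by fun_prop
  have hSm : ∀ i, MeasurableSet (S i) := fun i =>
    ((isOpen_lt (f := fun _ : V D => 8 ^ i * R) continuous_const hnc).inter
      (isOpen_lt hnc (continuous_const (y := 8 * (8 ^ i * R))))).measurableSet
  -- points where u = 0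
  have ha : ∀ t, 0 ≤ t → t < ‖H v - H 0‖ → ∃ a, ‖a - H 0‖ = t ∧ u a = 0 := by
    intro t ht0 ht
    have hc : ContinuousOn (fun s : ℝ => ‖H (s • v) - H 0‖) (Icc 0 1) := by
      intro s hs
      have hsv : s • v ∈ ball (0 : V D) 1 := by
        rw [mem_ball_zero_iff, norm_smul, Real.norm_eq_abs, abs_of_nonneg hs.1]
        nlinarith [hs.2, norm_nonneg v]
      have h5 : ContinuousAt (fun s : ℝ => H (s • v)) s :=
        ContinuousAt.comp (g := H) (hH.deriv _ hsv).continuousAt (by fun_prop)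
      exact (h5.sub continuousAt_const).norm.continuousWithinAt
    obtain ⟨s, hs, hst⟩ := intermediate_value_Icc (zero_le_one' ℝ) hc
      (show t ∈ Icc (‖H ((0 : ℝ) • v) - H 0‖) (‖H ((1 : ℝ) • v) - H 0‖) by
        rw [zero_smul, sub_self, norm_zero, one_smul]
        exact ⟨ht0, ht.le⟩)
    refine ⟨H (s • v), hst, hu0 _ ⟨s • v, ?_, rfl⟩⟩
    rw [mem_closedBall_zero_iff, norm_smul, Real.norm_eq_abs, abs_of_nonneg hs.1]
    nlinarith [hs.2, norm_nonneg v]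
  have hb : ∀ t, R < t → ∃ b, ‖b - H 0‖ = t ∧ u b = 1 := by
    intro t ht
    obtain ⟨b, hb1, hb2⟩ := h2 K H H' hH w₀ hw₀ t ht (3 / 4) (by norm_num)
    exact ⟨b, hb1, hu1 b hb2⟩
  have hi : ∀ i ∈ Finset.range m, η ≤ ∫⁻ w in S i, ENNReal.ofReal (‖fderiv ℝ u w‖ ^ D) := by
    intro i hi
    rw [Finset.mem_range] at hi
    have h8 : (1 : ℝ) ≤ 8 ^ i := one_le_pow₀ (by norm_num)
    refine shell hη hu (H 0) (r := 8 ^ i * R) (by positivity) fun t ht => ⟨ha t ?_ ?_, hb t ?_⟩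
    · have : 0 ≤ 2 * (8 ^ i * R) := by positivity
      linarith [ht.1]
    · have h9 : (8 : ℝ) ^ i ≤ 8 ^ m := pow_le_pow_right₀ (by norm_num) hi.le
      have h10 : (8 : ℝ) ^ (m + 1) * R = 8 * (8 ^ m * R) := by ring
      have h11 : (8 : ℝ) ^ i * R ≤ 8 ^ m * R := mul_le_mul_of_nonneg_right h9 hR0.le
      have h12 : 0 < (8 : ℝ) ^ m * R := by positivity
      linarith [ht.2]
    · have h9 : R ≤ 8 ^ i * R := by nlinarith
      linarith [ht.1]
  have hdisj : Set.PairwiseDisjoint (↑(Finset.range m)) S := by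
    have aux : ∀ i j : ℕ, i < j → Disjoint (S i) (S j) := by
      intro i j hij
      rw [Set.disjoint_left]
      rintro w ⟨_, hw2⟩ ⟨hw3, _⟩
      have h9 : (8 : ℝ) ^ (i + 1) ≤ 8 ^ j := pow_le_pow_right₀ (by norm_num) hij
      have h10 : (8 : ℝ) ^ (i + 1) * R ≤ 8 ^ j * R := mul_le_mul_of_nonneg_right h9 hR0.le
      have h11 : (8 : ℝ) ^ (i + 1) * R = 8 * (8 ^ i * R) := by ring
      linarith
    intro i _ j _ hij
    rcases lt_or_gt_of_ne hij with h5 | h5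
    · exact aux i j h5
    · exact (aux j i h5).symm
  have h5 : (m : ENNReal) * η ≤ M := by
    calc (m : ENNReal) * η = ∑ _i ∈ Finset.range m, η := by
          rw [Finset.sum_const, Finset.card_range, nsmul_eq_mul]
      _ ≤ ∑ i ∈ Finset.range m, ∫⁻ w in S i, ENNReal.ofReal (‖fderiv ℝ u w‖ ^ D) := Finset.sum_le_sum hi
      _ = ∫⁻ w in ⋃ i ∈ Finset.range m, S i, ENNReal.ofReal (‖fderiv ℝ u w‖ ^ D) :=
          (lintegral_biUnion_finset hdisj (fun i _ => hSm i) _).symm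
      _ ≤ ∫⁻ w, ENNReal.ofReal (‖fderiv ℝ u w‖ ^ D) := setLIntegral_le_lintegral _ _
      _ ≤ M := hue
  exact absurd hm (not_lt.2 h5)

/-- rescaled embeddings -/
lemma rescale {D : ℕ} {K : ℝ} {H : V D → V D} {H' : V D → (V D →L[ℝ] V D)} (h : QCEmb D K H H' univ)
    (c : V D) {ρ : ℝ} (hρ : 0 < ρ) :
    QCEmb D K (fun v => H (c + ρ • v)) (fun v => ρ • H' (c + ρ • v)) (ball 0 1) := by
  refine ⟨?_, ?_, ?_, ?_, ?_⟩
  · intro x _ y _ hxy
    have h1 := h.inj (mem_univ _) (mem_univ _) hxy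
    exact smul_right_injective _ hρ.ne' (add_left_cancel h1)
  · intro v _
    have h1 : HasFDerivAt (fun v : V D => c + ρ • v) (ρ • ContinuousLinearMap.id ℝ (V D)) v :=
      ((hasFDerivAt_id v).const_smul ρ).const_add c
    have h2 := (h.deriv (c + ρ • v) (mem_univ _)).comp v h1
    refine h2.congr_fderiv ?_
    ext x : 1
    simp
  · have h1 : Continuous H' := continuousOn_univ.1 h.cont
    exact (Continuous.const_smul (h1.comp (by fun_prop)) ρ).continuousOn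
  · intro v _ x y hxy
    refine h.dinj (c + ρ • v) (mem_univ _) ?_
    have h1 : ρ • H' (c + ρ • v) x = ρ • H' (c + ρ • v) y := hxy
    exact smul_right_injective _ hρ.ne' h1
  · intro v _ a b
    have h1 := h.qc (c + ρ • v) (mem_univ _) a b
    show ‖ρ • H' (c + ρ • v) a‖ * ‖b‖ ≤ K * (‖ρ • H' (c + ρ • v) b‖ * ‖a‖)
    rw [norm_smul, norm_smul, Real.norm_eq_abs, abs_of_pos hρ]
    calc ρ * ‖H' (c + ρ • v) a‖ * ‖b‖ = ρ * (‖H' (c + ρ • v) a‖ * ‖b‖) := by ring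
      _ ≤ ρ * (K * (‖H' (c + ρ • v) b‖ * ‖a‖)) := mul_le_mul_of_nonneg_left h1 hρ.le
      _ = _ := by ring

theorem onto (D : ℕ) (_hD : 2 ≤ D) (h : SEgg D) : SOnto D := by
  intro K H H' hH
  by_contra hns
  obtain ⟨C, hC, hegg⟩ := h K
  have key : ∀ w, w ∉ range H → ∀ x c, ‖H x - H c‖ ≤ C * ‖w - H c‖ := by
    intro w hw x c
    set ρ : ℝ := 2 * (‖x - c‖ + 1) with hρ
    have hρ0 : 0 < ρ := by positivity
    have h1 := hegg _ _ (rescale hH c hρ0) w (by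
      rintro ⟨v, _, hv⟩
      exact hw ⟨_, hv⟩) (ρ⁻¹ • (x - c)) (by
      rw [norm_smul, norm_inv, Real.norm_eq_abs, abs_of_pos hρ0, inv_mul_le_iff₀ hρ0, hρ]
      linarith)
    simp only [smul_zero, add_zero] at h1
    rw [smul_smul, mul_inv_cancel₀ hρ0.ne', one_smul, add_sub_cancel] at h1
    exact h1
  have hopen : IsOpen (range H) := by
    rw [← image_univ]
    exact image_open hH isOpen_univ isOpen_univ (subset_univ _)
  obtain ⟨w1, hw1, hw2⟩ : ∃ w1 ∈ closure (range H), w1 ∉ range H := by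
    by_contra hno
    push Not at hno
    have hcl : IsClosed (range H) := isClosed_of_closure_subset hno
    have : range H = univ := IsClopen.eq_univ ⟨hcl, hopen⟩ (range_nonempty H)
    exact hns (range_eq_univ.1 this)
  apply hw2
  refine ⟨0, ?_⟩
  have h0 : ∀ ε : ℝ, 0 < ε → ‖H 0 - w1‖ ≤ (C + 1) * ε := by
    intro ε hε
    rw [Metric.mem_closure_iff] at hw1
    obtain ⟨_, ⟨c, rfl⟩, hc⟩ := hw1 ε hε
    rw [dist_eq_norm] at hc
    have h1 := key w1 hw2 0 c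
    have h2 : ‖H 0 - w1‖ ≤ ‖H 0 - H c‖ + ‖H c - w1‖ := norm_sub_le_norm_sub_add_norm_sub _ _ _
    rw [norm_sub_rev (H c) w1] at h2
    have h3 : C * ‖w1 - H c‖ ≤ C * ε := mul_le_mul_of_nonneg_left hc.le hC.le
    linarith
  have h4 : ‖H 0 - w1‖ ≤ 0 := by
    refine le_of_forall_pos_le_add fun ε hε => ?_
    have := h0 (ε / (C + 1)) (by positivity)
    rw [mul_div_cancel₀ _ (by positivity)] at this
    linarith
  exact sub_eq_zero.1 (norm_le_zero_iff.1 h4)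

end Pool.Agent.Q210.UQ
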