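import Pool.Agent.Q210.UQ.Base

/-! # The energy part -/

set_option autoImplicit false

open Metric Set MeasureTheory Filter Topology
open Pool.Agent.Q130.UQ

namespace Pool.Agent.Q210.UQ

variable {D : ℕ} {K : ℝ} {H : V D → V D} {H' : V D → (V D →L[ℝ] V D)} {U : Set (V D)}

lemma contDiffAt_H (h : QCEmb D K H H' U) (hU : IsOpen U) {v : V D} (hv : v ∈ U) : ContDiffAt ℝ 1 H v := by
  rw [contDiffAt_one_iff]
  exact ⟨H', U, hU.mem_nhds hv, h.cont, h.deriv⟩

/-- the derivative as an equivalence -/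
noncomputable def eqv (h : QCEmb D K H H' U) {v : V D} (hv : v ∈ U) : V D ≃L[ℝ] V D :=
  (LinearEquiv.ofBijective (H' v : V D →ₗ[ℝ] V D) ⟨h.dinj v hv, surj h hv⟩).toContinuousLinearEquiv

lemma eqv_coe (h : QCEmb D K H H' U) {v : V D} (hv : v ∈ U) : (eqv h hv : V D →L[ℝ] V D) = H' v := by
  ext x : 1
  rfl

lemma inv_cd (h : QCEmb D K H H' U) (hU : IsOpen U) {v : V D} (hv : v ∈ U) :
    ContDiffAt ℝ 1 (Function.invFunOn H U) (H v) := by
  have hd : HasFDerivAt H (eqv h hv : V D →L[ℝ] V D) v := by rw [eqv_coe]; exact h.deriv v hv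
  have hc := contDiffAt_H h hU hv
  have h1 := hc.to_localInverse hd one_ne_zero
  refine h1.congr_of_eventuallyEq ?_
  have hst := hc.hasStrictFDerivAt' hd one_ne_zero
  have e1 : ∀ᶠ y in 𝓝 (H v), H (hc.localInverse hd one_ne_zero y) = y := hst.eventually_right_inverse
  have e2 : ∀ᶠ y in 𝓝 (H v), hc.localInverse hd one_ne_zero y ∈ U := by
    have h2 : ContinuousAt (hc.localInverse hd one_ne_zero) (H v) := h1.continuousAt
    have h3 : hc.localInverse hd one_ne_zero (H v) = v := hst.localInverse_apply_image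
    exact h2.preimage_mem_nhds (by rw [h3]; exact hU.mem_nhds hv)
  filter_upwards [e1, e2] with y h4 h5
  have h6 : y ∈ H '' U := ⟨_, h5, h4⟩
  exact h.inj (Function.invFunOn_mem h6) h5 ((Function.invFunOn_eq h6).trans h4.symm)

/-- the determinant and the norm -/
lemma abs_det_le (A : V D →L[ℝ] V D) : |LinearMap.det (A : V D →ₗ[ℝ] V D)| ≤ ‖A‖ ^ D := by
  have h1 := Measure.addHaar_image_continuousLinearMap (volume : Measure (V D)) A (ball 0 1)
  have hsub : A '' ball 0 1 ⊆ closedBall 0 ‖A‖ := by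
    rintro _ ⟨x, hx, rfl⟩
    rw [mem_ball_zero_iff] at hx
    rw [mem_closedBall_zero_iff]
    exact (A.le_opNorm x).trans (mul_le_of_le_one_right (norm_nonneg _) hx.le)
  have h2 := measure_mono (μ := (volume : Measure (V D))) hsub
  rw [h1, Measure.addHaar_closedBall _ _ (norm_nonneg _), finrank_euclideanSpace_fin] at h2
  have h3 : (volume (ball (0 : V D) 1)) ≠ 0 := (measure_ball_pos _ _ one_pos).ne'
  have h4 : (volume (ball (0 : V D) 1)) ≠ ⊤ := measure_ball_lt_top.ne
  have h5 := (ENNReal.mul_le_mul_iff_left h3 h4).1 h2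
  exact (ENNReal.ofReal_le_ofReal_iff (by positivity)).1 h5

/-- the radial profile -/
noncomputable def prof (D : ℕ) (v : V D) : ℝ := Real.smoothTransition (16 / 5 * (‖v‖ ^ 2 - 1 / 4))

lemma prof_cd (D : ℕ) : ContDiff ℝ 1 (prof D) := by
  have h1 : ContDiff ℝ 1 Real.smoothTransition := Real.smoothTransition.contDiff (n := 1)
  exact h1.comp (contDiff_const.mul ((contDiff_norm_sq ℝ).sub contDiff_const))

lemma prof_zero {D : ℕ} {v : V D} (h : ‖v‖ ≤ 1 / 2) : prof D v = 0 := by
  unfold prof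
  apply Real.smoothTransition.zero_of_nonpos
  nlinarith [norm_nonneg v]

lemma prof_one {D : ℕ} {v : V D} (h : 3 / 4 < ‖v‖) : prof D v = 1 := by
  unfold prof
  apply Real.smoothTransition.one_of_one_le
  nlinarith [norm_nonneg v]

theorem energy (D : ℕ) (hD : 2 ≤ D) : SEnergy D := by
  intro K
  have hpc := prof_cd D
  obtain ⟨c, hc⟩ : ∃ c : ℝ, ∀ v ∈ closedBall (0 : V D) 1, ‖fderiv ℝ (prof D) v‖ ≤ c :=
    (isCompact_closedBall (0 : V D) 1).exists_bound_of_continuousOn
      (hpc.continuous_fderiv one_ne_zero).continuousOn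
  have hc0 : 0 ≤ c := (norm_nonneg _).trans (hc 0 (mem_closedBall_self zero_le_one))
  refine ⟨ENNReal.ofReal ((c * K) ^ D) * volume (ball (0 : V D) 1),
    ENNReal.mul_lt_top ENNReal.ofReal_lt_top measure_ball_lt_top, fun H H' hH => ?_⟩
  classical
  set Ω : Set (V D) := H '' ball 0 1 with hΩ
  set G := Function.invFunOn H (ball (0 : V D) 1) with hG
  set u : V D → ℝ := fun w => if w ∈ Ω then prof D (G w) else 1 with hu
  have hΩo : IsOpen Ω := image_open hH isOpen_ball isOpen_ball Subset.rfl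
  have hGH : ∀ v ∈ ball (0 : V D) 1, G (H v) = v := fun v hv =>
    hH.inj (Function.invFunOn_mem ⟨v, hv, rfl⟩) hv (Function.invFunOn_eq ⟨v, hv, rfl⟩)
  have huH : ∀ v ∈ ball (0 : V D) 1, u (H v) = prof D v := by
    intro v hv
    simp only [hu]
    rw [if_pos ⟨v, hv, rfl⟩, hGH v hv]
  have hsub : closedBall (0 : V D) (3 / 4) ⊆ ball 0 1 := closedBall_subset_ball (by norm_num)
  have hcomp : IsCompact (H '' closedBall 0 (3 / 4)) :=
    (isCompact_closedBall _ _).image_of_continuousOn ((contOn hH).mono hsub)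
  have hone : ∀ w ∉ H '' closedBall 0 (3 / 4), u w = 1 := by
    intro w hw
    by_cases hwΩ : w ∈ Ω
    · obtain ⟨v, hv, rfl⟩ := hwΩ
      rw [huH v hv]
      apply prof_one
      by_contra hcon
      exact hw ⟨v, by rw [mem_closedBall_zero_iff]; linarith, rfl⟩
    · simp only [hu]; rw [if_neg hwΩ]
  have hev : ∀ w ∉ H '' closedBall 0 (3 / 4), u =ᶠ[𝓝 w] fun _ => (1 : ℝ) := by
    intro w hw
    filter_upwards [hcomp.isClosed.isOpen_compl.mem_nhds hw] with z hz
    exact hone z hz
  have hucd : ContDiff ℝ 1 u := by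
    rw [contDiff_iff_contDiffAt]
    intro w
    by_cases hwΩ : w ∈ Ω
    · have h1 : u =ᶠ[𝓝 w] fun z => prof D (G z) := by
        filter_upwards [hΩo.mem_nhds hwΩ] with z hz
        simp only [hu]; rw [if_pos hz]
      obtain ⟨v, hv, rfl⟩ := hwΩ
      refine ContDiffAt.congr_of_eventuallyEq ?_ h1
      exact hpc.contDiffAt.comp (H v) (inv_cd hH isOpen_ball hv)
    · have h1 : w ∉ H '' closedBall 0 (3 / 4) := fun h => hwΩ (image_mono hsub h)
      exact contDiffAt_const.congr_of_eventuallyEq (hev w h1)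
  refine ⟨u, hucd, ?_, hone, ?_⟩
  · rintro _ ⟨v, hv, rfl⟩
    rw [mem_closedBall_zero_iff] at hv
    rw [huH v (by rw [mem_ball_zero_iff]; linarith)]
    exact prof_zero hv
  · have hΩm : MeasurableSet Ω := hΩo.measurableSet
    have h0 : ∀ w ∈ Ωᶜ, ENNReal.ofReal (‖fderiv ℝ u w‖ ^ D) = 0 := by
      intro w hw
      have h1 : w ∉ H '' closedBall 0 (3 / 4) := fun h => hw (image_mono hsub h)
      have h2 : fderiv ℝ u w = 0 := by
        rw [(hev w h1).fderiv_eq]
        simp
      rw [h2, norm_zero, zero_pow (by omega), ENNReal.ofReal_zero]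
    have hpt : ∀ v ∈ ball (0 : V D) 1, ENNReal.ofReal |(H' v).det| * ENNReal.ofReal (‖fderiv ℝ u (H v)‖ ^ D) ≤
        ENNReal.ofReal ((c * K) ^ D) := by
      intro v hv
      rw [← ENNReal.ofReal_mul (abs_nonneg _)]
      refine ENNReal.ofReal_le_ofReal ?_
      set P := fderiv ℝ u (H v) with hP
      have hchain : P.comp (H' v) = fderiv ℝ (prof D) v := by
        have h1 : HasFDerivAt (fun x => u (H x)) (P.comp (H' v)) v :=
          ((hucd.differentiable one_ne_zero) (H v)).hasFDerivAt.comp v (hH.deriv v hv)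
        have h2 : (fun x => u (H x)) =ᶠ[𝓝 v] prof D := by
          filter_upwards [isOpen_ball.mem_nhds hv] with x hx
          exact huH x hx
        rw [← h1.fderiv, h2.fderiv_eq]
      have hPc : ∀ b, ‖P (H' v b)‖ ≤ c * ‖b‖ := by
        intro b
        have h1 : P (H' v b) = fderiv ℝ (prof D) v b := by rw [← hchain]; rfl
        rw [h1]
        exact (ContinuousLinearMap.le_opNorm _ _).trans
          (mul_le_mul_of_nonneg_right (hc v (ball_subset_closedBall hv)) (norm_nonneg _))
      have hA : ∀ b, ‖H' v‖ * ‖b‖ ≤ K * ‖H' v b‖ := by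
        intro b
        by_cases hb : b = 0
        · rw [hb]; simp
        have hb0 : 0 < ‖b‖ := norm_pos_iff.2 hb
        have hAb : 0 < ‖H' v b‖ := by
          rw [norm_pos_iff]
          intro h
          exact hb (hH.dinj v hv (h.trans (map_zero _).symm))
        have hK0 : 0 ≤ K := by
          have h1 := hH.qc v hv b b
          have h2 : 0 < ‖H' v b‖ * ‖b‖ := by positivity
          by_contra hneg
          rw [not_le] at hneg
          nlinarith
        rw [← le_div_iff₀ hb0]
        refine ContinuousLinearMap.opNorm_le_bound _ (by positivity) fun a => ?_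
        have h1 := hH.qc v hv a b
        rw [div_mul_eq_mul_div, le_div_iff₀ hb0]
        calc ‖H' v a‖ * ‖b‖ ≤ K * (‖H' v b‖ * ‖a‖) := h1
          _ = _ := by ring
      have hPA : ‖H' v‖ * ‖P‖ ≤ c * K := by
        rcases eq_or_lt_of_le (norm_nonneg (H' v)) with h0 | h0
        · rw [← h0, zero_mul]
          -- the derivative is not zero
          exfalso
          obtain ⟨e, he⟩ : ∃ e : V D, ‖e‖ = 1 := by
            refine ⟨EuclideanSpace.single ⟨0, by omega⟩ 1, ?_⟩
            simp
          have h1 : H' v = 0 := norm_eq_zero.1 h0.symm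
          have h2 : e = 0 := hH.dinj v hv (by rw [h1]; rfl)
          rw [h2, norm_zero] at he
          exact zero_ne_one he
        · rw [mul_comm, ← le_div_iff₀ h0]
          have hK0 : 0 ≤ c * K := by
            obtain ⟨e, he⟩ : ∃ e : V D, ‖e‖ = 1 := by
              refine ⟨EuclideanSpace.single ⟨0, by omega⟩ 1, ?_⟩
              simp
            have h1 := hA e
            rw [he, mul_one] at h1
            have h2 : 0 < K := by
              by_contra hneg
              rw [not_lt] at hneg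
              have : K * ‖H' v e‖ ≤ 0 := mul_nonpos_of_nonpos_of_nonneg hneg (norm_nonneg _)
              linarith
            positivity
          refine ContinuousLinearMap.opNorm_le_bound _ (by positivity) fun x => ?_
          obtain ⟨b, rfl⟩ := surj hH hv x
          rw [div_mul_eq_mul_div, le_div_iff₀ h0]
          calc ‖P (H' v b)‖ * ‖H' v‖ ≤ (c * ‖b‖) * ‖H' v‖ :=
                mul_le_mul_of_nonneg_right (hPc b) (norm_nonneg _)
            _ = c * (‖H' v‖ * ‖b‖) := by ring
            _ ≤ c * (K * ‖H' v b‖) := mul_le_mul_of_nonneg_left (hA b) hc0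
            _ = _ := by ring
      have hdet : |(H' v).det| ≤ ‖H' v‖ ^ D := abs_det_le (H' v)
      calc |(H' v).det| * ‖P‖ ^ D ≤ ‖H' v‖ ^ D * ‖P‖ ^ D := mul_le_mul_of_nonneg_right hdet (by positivity)
        _ = (‖H' v‖ * ‖P‖) ^ D := (mul_pow _ _ _).symm
        _ ≤ (c * K) ^ D := pow_le_pow_left₀ (by positivity) hPA D
    calc ∫⁻ w, ENNReal.ofReal (‖fderiv ℝ u w‖ ^ D)
        = (∫⁻ w in Ω, ENNReal.ofReal (‖fderiv ℝ u w‖ ^ D)) + ∫⁻ w in Ωᶜ, ENNReal.ofReal (‖fderiv ℝ u w‖ ^ D) :=
          (lintegral_add_compl _ hΩm).symm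
      _ = (∫⁻ w in Ω, ENNReal.ofReal (‖fderiv ℝ u w‖ ^ D)) + 0 := by
          congr 1
          rw [setLIntegral_congr_fun hΩm.compl h0, lintegral_zero]
      _ = ∫⁻ v in ball (0 : V D) 1, ENNReal.ofReal |(H' v).det| * ENNReal.ofReal (‖fderiv ℝ u (H v)‖ ^ D) := by
          rw [add_zero, hΩ]
          exact lintegral_image_eq_lintegral_abs_det_fderiv_mul volume measurableSet_ball
            (fun x hx => (hH.deriv x hx).hasFDerivWithinAt) hH.inj _
      _ ≤ ∫⁻ _v in ball (0 : V D) 1, ENNReal.ofReal ((c * K) ^ D) :=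
          setLIntegral_mono' measurableSet_ball hpt
      _ = _ := by rw [setLIntegral_const]

end Pool.Agent.Q210.UQ
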