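import Pool.Agent.Q210.UQ.Lo1

/-! # The Loewner estimate -/

set_option autoImplicit false

open Metric Set MeasureTheory Filter Topology
open Pool.Agent.Q130.UQ

namespace Pool.Agent.Q210.UQ

variable {D : ℕ}

lemma lint_ball {u : V D → ℝ} (hu : ContDiff ℝ 1 u) (a : V D) (s : ℝ) :
    ∫⁻ x in ball a s, ENNReal.ofReal (gg u x ^ D) = ENNReal.ofReal (EE u a s) := by
  unfold EE
  have hc : Continuous fun x : V D => gg u x ^ D := (gg_cont hu).pow D
  exact (ofReal_integral_eq_lintegral_ofReal (int_ball hc a s)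
    (Eventually.of_forall fun x => pow_nonneg (gg_nonneg u x) D)).symm

/-- the shell -/
def Sh (D : ℕ) : Set (V D) := {w | 1 / 2 < ‖w‖ ∧ ‖w‖ < 4}

lemma Sh_meas (D : ℕ) : MeasurableSet (Sh D) :=
  ((isOpen_lt continuous_const continuous_norm).inter (isOpen_lt continuous_norm continuous_const)).measurableSet

/-- most radii are good -/
lemma good_radius {u : V D → ℝ} (hu : ContDiff ℝ 1 u) {β : ℝ} (hβ : 0 < β)
    (hA : ENNReal.ofReal (10 / β) * ∫⁻ x in Sh D, ENNReal.ofReal (gg u x ^ D) < 1) :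
    ∃ t ∈ Icc (1 : ℝ) 2, ∀ a : V D, ‖a‖ = t → ∀ s, 0 < s → s ≤ 1 / 8 → EE u a s ≤ β * s := by
  by_contra hcon
  push Not at hcon
  choose! A hA1 S hS0 hS1 hS2 using hcon
  -- the family
  obtain ⟨I, hI, hdis, hcov⟩ := Vitali.exists_disjoint_subfamily_covering_enlargement_closedBall
    (Icc (1 : ℝ) 2) A S (1 / 8) (fun t ht => hS1 t ht) 5 (by norm_num)
  have hcount : I.Countable := hdis.countable_of_nonempty_interior fun t ht => by
    refine ⟨A t, ?_⟩
    exact ball_subset_interior_closedBall (mem_ball_self (hS0 t (hI ht)))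
  -- the radii
  have hsub : Icc (1 : ℝ) 2 ⊆ ⋃ i ∈ I, Icc (i - 5 * S i) (i + 5 * S i) := by
    intro t ht
    obtain ⟨i, hi, hi2⟩ := hcov t ht
    have h1 : A t ∈ closedBall (A i) (5 * S i) := hi2 (mem_closedBall_self (hS0 t ht).le)
    rw [mem_closedBall, dist_eq_norm] at h1
    have h2 := (abs_norm_sub_norm_le (A t) (A i)).trans h1
    rw [hA1 t ht, hA1 i (hI hi), abs_le] at h2
    rw [mem_iUnion₂]
    exact ⟨i, hi, by constructor <;> linarith [h2.1, h2.2]⟩
  have hvol : (1 : ENNReal) ≤ ∑' i : I, ENNReal.ofReal (10 * S i) := by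
    have h1 : volume (Icc (1 : ℝ) 2) = 1 := by
      rw [Real.volume_Icc]; norm_num
    rw [← h1]
    refine (measure_mono hsub).trans ((measure_biUnion_le volume hcount _).trans (le_of_eq ?_))
    refine tsum_congr fun i => ?_
    rw [Real.volume_Icc]
    congr 1
    ring
  -- the energies
  set ν : Measure (V D) := volume.withDensity fun x => ENNReal.ofReal (gg u x ^ D) with hν
  have hen : ∑' i : I, ENNReal.ofReal (β * S i) ≤ ∫⁻ x in Sh D, ENNReal.ofReal (gg u x ^ D) := by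
    have h1 : ∑' i : I, ν (ball (A i) (S i)) ≤ ν (⋃ i : I, ball (A i) (S i)) := by
      refine tsum_meas_le_meas_iUnion_of_disjoint ν (fun i => measurableSet_ball) ?_
      intro i j hij
      have h2 := hdis i.2 j.2 (fun h => hij (Subtype.ext h))
      exact h2.mono ball_subset_closedBall ball_subset_closedBall
    have h2 : (⋃ i : I, ball (A i) (S i)) ⊆ Sh D := by
      intro x hx
      rw [mem_iUnion] at hx
      obtain ⟨i, hi⟩ := hx
      rw [mem_ball, dist_eq_norm] at hi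
      have hiI := hI i.2
      have h3 := (abs_norm_sub_norm_le x (A i)).trans hi.le
      rw [hA1 _ hiI, abs_le] at h3
      have h4 := hS1 _ hiI
      have h5 := hiI.1
      have h6 := hiI.2
      constructor <;> linarith [h3.1, h3.2]
    have h3 : ν (⋃ i : I, ball (A i) (S i)) ≤ ∫⁻ x in Sh D, ENNReal.ofReal (gg u x ^ D) := by
      refine (measure_mono h2).trans (le_of_eq ?_)
      rw [hν, withDensity_apply _ (Sh_meas D)]
    refine le_trans (ENNReal.tsum_le_tsum fun i => ?_) (h1.trans h3)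
    rw [hν, withDensity_apply _ measurableSet_ball, lint_ball hu]
    exact ENNReal.ofReal_le_ofReal (hS2 _ (hI i.2)).le
  have hfin : (1 : ENNReal) ≤ ENNReal.ofReal (10 / β) * ∫⁻ x in Sh D, ENNReal.ofReal (gg u x ^ D) := by
    calc (1 : ENNReal) ≤ ∑' i : I, ENNReal.ofReal (10 * S i) := hvol
      _ = ∑' i : I, ENNReal.ofReal (10 / β) * ENNReal.ofReal (β * S i) := by
          refine tsum_congr fun i => ?_
          rw [← ENNReal.ofReal_mul (by positivity)]
          congr 1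
          field_simp
      _ = ENNReal.ofReal (10 / β) * ∑' i : I, ENNReal.ofReal (β * S i) := ENNReal.tsum_mul_left
      _ ≤ _ := by gcongr
  exact absurd hA (not_lt.2 hfin)

/-- a unit vector at angle at most a right angle with two given ones -/
lemma exists_mid (hD : 2 ≤ D) (a b : V D) (ha : a ≠ 0) :
    ∃ e : V D, ‖e‖ = 1 ∧ 0 ≤ inner ℝ e a ∧ 0 ≤ inner ℝ e b := by
  obtain ⟨e0, he0, he1⟩ : ∃ e0 : V D, e0 ≠ 0 ∧ inner ℝ e0 a = 0 := by
    by_contra hcon
    push Not at hcon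
    have h1 : (ℝ ∙ a)ᗮ = ⊥ := by
      rw [Submodule.eq_bot_iff]
      intro x hx
      by_contra hx0
      refine hcon x hx0 ?_
      rw [Submodule.mem_orthogonal_singleton_iff_inner_left] at hx
      exact hx
    have h2 := Submodule.finrank_add_finrank_orthogonal (K := (ℝ ∙ a))
    rw [h1, finrank_bot, finrank_span_singleton ha, finrank_euclideanSpace_fin] at h2
    omega
  have hn : 0 < ‖e0‖ := norm_pos_iff.2 he0
  by_cases hb : 0 ≤ inner ℝ e0 b
  · refine ⟨‖e0‖⁻¹ • e0, ?_, ?_, ?_⟩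
    · rw [norm_smul, norm_inv, norm_norm, inv_mul_cancel₀ hn.ne']
    · rw [real_inner_smul_left, he1, mul_zero]
    · rw [real_inner_smul_left]; positivity
  · refine ⟨-(‖e0‖⁻¹ • e0), ?_, ?_, ?_⟩
    · rw [norm_neg, norm_smul, norm_inv, norm_norm, inv_mul_cancel₀ hn.ne']
    · rw [inner_neg_left, real_inner_smul_left, he1, mul_zero, neg_zero]
    · rw [inner_neg_left, real_inner_smul_left]
      rw [not_le] at hb
      have : ‖e0‖⁻¹ * inner ℝ e0 b ≤ 0 := mul_nonpos_of_nonneg_of_nonpos (by positivity) hb.le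
      linarith

lemma seg_norm {a e : V D} {t τ : ℝ} (ht1 : 1 ≤ t) (ht2 : t ≤ 2) (ha : ‖a‖ = t) (he : ‖e‖ = 1)
    (hin : 0 ≤ inner ℝ e a) (hτ : τ ∈ Icc (0 : ℝ) 1) :
    5 / 8 ≤ ‖a + τ • (t • e - a)‖ ∧ ‖a + τ • (t • e - a)‖ ≤ 2 := by
  have e1 : a + τ • (t • e - a) = (1 - τ) • a + (τ * t) • e := by
    rw [smul_sub, sub_smul, one_smul, smul_smul]
    abel
  have h0 : 0 ≤ 1 - τ := by linarith [hτ.2]
  have h0' : 0 ≤ τ * t := mul_nonneg hτ.1 (by linarith)
  constructor
  · have h1 : ‖(1 - τ) • a + (τ * t) • e‖ ^ 2 = (1 - τ) ^ 2 * t ^ 2 + 2 * ((1 - τ) * (τ * t) * inner ℝ e a) + (τ * t) ^ 2 := by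
      rw [norm_add_sq_real, norm_smul, norm_smul, ha, he, real_inner_smul_left, real_inner_smul_right,
        real_inner_comm e a, Real.norm_eq_abs, Real.norm_eq_abs, abs_of_nonneg h0, abs_of_nonneg h0']
      ring
    have h2 : 0 ≤ (1 - τ) * (τ * t) * inner ℝ e a := by positivity
    have h3 : 1 / 2 ≤ (1 - τ) ^ 2 * t ^ 2 + (τ * t) ^ 2 := by
      have h4 : 1 / 2 ≤ (1 - τ) ^ 2 + τ ^ 2 := by nlinarith [sq_nonneg (2 * τ - 1)]
      have h5 : 1 ≤ t ^ 2 := by nlinarith
      nlinarith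
    rw [e1]
    by_contra hc
    rw [not_le] at hc
    have : ‖(1 - τ) • a + (τ * t) • e‖ ^ 2 < (5 / 8) ^ 2 := by
      have := norm_nonneg ((1 - τ) • a + (τ * t) • e)
      nlinarith
    linarith
  · rw [e1]
    refine (norm_add_le _ _).trans ?_
    rw [norm_smul, norm_smul, ha, he, Real.norm_eq_abs, Real.norm_eq_abs, abs_of_nonneg h0, abs_of_nonneg h0']
    nlinarith

theorem loewner (D : ℕ) (hD : 2 ≤ D) : SLoewner D := by
  obtain ⟨n, hn⟩ : ∃ n, D = n + 1 := ⟨D - 1, by omega⟩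
  have hω := om_pos D
  have hD0 : (0 : ℝ) < D := by
    have : 0 < D := by omega
    exact_mod_cast this
  set κ : ℝ := om D / (8 * D * (om D + 1)) with hκ
  have hκ0 : 0 < κ := by positivity
  have hκ1 : κ * (om D + 1) * D = om D / 8 := by
    rw [hκ]; field_simp
  set β : ℝ := κ ^ D with hβ
  have hβ0 : 0 < β := by positivity
  set Q : ℝ := 4 * (64 : ℝ) ^ n * 8 ^ D with hQ
  have hQ0 : 0 < Q := by positivity
  set M : ℝ := om D / (16 * Q) with hM
  have hM0 : 0 < M := by positivity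
  refine ⟨min (ENNReal.ofReal (β / 20)) (ENNReal.ofReal M), ?_, fun u hu hval => ?_⟩
  · rw [lt_min_iff]
    exact ⟨ENNReal.ofReal_pos.2 (by positivity), ENNReal.ofReal_pos.2 hM0⟩
  by_contra hcon
  rw [not_le, lt_min_iff] at hcon
  obtain ⟨hc1, hc2⟩ := hcon
  change ∫⁻ w in Sh D, ENNReal.ofReal (gg u w ^ D) < _ at hc1
  change ∫⁻ w in Sh D, ENNReal.ofReal (gg u w ^ D) < _ at hc2
  have hA : ENNReal.ofReal (10 / β) * ∫⁻ x in Sh D, ENNReal.ofReal (gg u x ^ D) < 1 := by
    calc ENNReal.ofReal (10 / β) * ∫⁻ x in Sh D, ENNReal.ofReal (gg u x ^ D)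
        ≤ ENNReal.ofReal (10 / β) * ENNReal.ofReal (β / 20) := by gcongr
      _ = ENNReal.ofReal (1 / 2) := by
          rw [← ENNReal.ofReal_mul (by positivity)]
          congr 1
          field_simp
          norm_num
      _ < 1 := by
          rw [← ENNReal.ofReal_one]
          exact (ENNReal.ofReal_lt_ofReal_iff one_pos).2 (by norm_num)
  obtain ⟨t, ht, hgood⟩ := good_radius hu hβ0 hA
  obtain ⟨⟨a, ha, hua⟩, b, hb, hub⟩ := hval t ht
  have ha0 : a ≠ 0 := by
    intro h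
    rw [h, norm_zero] at ha
    linarith [ht.1]
  obtain ⟨e, he, hea, heb⟩ := exists_mid hD a b ha0
  -- energies of balls of radius 1/8
  have hE : ∀ c : V D, 5 / 8 ≤ ‖c‖ → ‖c‖ ≤ 2 → EE u c (1 / 8) ≤ M := by
    intro c h1 h2
    have hsub : ball c (1 / 8) ⊆ Sh D := by
      intro x hx
      rw [mem_ball, dist_eq_norm] at hx
      have h3 := (abs_norm_sub_norm_le x c).trans_lt hx
      rw [abs_lt] at h3
      constructor <;> linarith [h3.1, h3.2]
    have h3 : ENNReal.ofReal (EE u c (1 / 8)) ≤ ENNReal.ofReal M := by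
      rw [← lint_ball hu]
      exact (lintegral_mono_set hsub).trans hc2.le
    exact (ENNReal.ofReal_le_ofReal_iff hM0.le).1 h3
  have hmv : ∀ c : V D, ‖c‖ = t → |VV u c (1 / 8) - om D * u c| ≤ om D / 8 := by
    intro c hc
    rw [← hκ1]
    exact mean_value hn hu c (by norm_num) (by norm_num) hκ0 le_rfl (fun s hs hs1 => hgood c hc s hs hs1)
  have hmove : ∀ c : V D, ‖c‖ = t → 0 ≤ inner ℝ e c →
      |VV u (t • e) (1 / 8) - VV u c (1 / 8)| ≤ om D / 8 := by
    intro c hc hin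
    have h1 := move hn hu c (t • e) (r := 1 / 8) (δ := 1 / 64) (M := M) (by norm_num) (by norm_num)
      (fun τ hτ => by
        obtain ⟨h2, h3⟩ := seg_norm ht.1 ht.2 hc he hin hτ
        exact hE _ h2 h3)
    refine h1.trans ?_
    have h2 : ‖t • e - c‖ ≤ 4 := by
      refine (norm_sub_le _ _).trans ?_
      rw [norm_smul, he, hc, Real.norm_eq_abs, abs_of_nonneg (by linarith [ht.1])]
      linarith [ht.2]
    have h3 : (1 / 64 : ℝ)⁻¹ ^ n * (((1 / 8 : ℝ) ^ D)⁻¹ * M) = om D / 64 := by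
      rw [hM, hQ]
      have e1 : (1 / 64 : ℝ)⁻¹ = 64 := by norm_num
      have e2 : ((1 / 8 : ℝ) ^ D)⁻¹ = 8 ^ D := by
        rw [← inv_pow]; norm_num
      rw [e1, e2]
      field_simp
      norm_num
    rw [h3]
    calc ‖t • e - c‖ * (1 / 64 * om D + om D / 64) ≤ 4 * (1 / 64 * om D + om D / 64) := by
          gcongr
      _ = om D / 8 := by ring
  have k1 := abs_le.1 (hmv a ha)
  have k2 := abs_le.1 (hmv b hb)
  have k3 := abs_le.1 (hmove a ha hea)
  have k4 := abs_le.1 (hmove b hb heb)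
  rw [hua, mul_zero, sub_zero] at k1
  rw [hub, mul_one] at k2
  linarith [k1.1, k1.2, k2.1, k2.2, k3.1, k3.2, k4.1, k4.2]

end Pool.Agent.Q210.UQ
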