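import Pool.Agent.Q210.UQ.Base

/-! # The topological part -/

set_option autoImplicit false

open Metric Set MeasureTheory Filter Topology
open Pool.Agent.Q130.UQ

namespace Pool.Agent.Q210.UQ

lemma meets_frontier {X : Type*} [TopologicalSpace X] {S T : Set X} (hS : IsPreconnected S)
    (h1 : (S ∩ T).Nonempty) (h2 : (S ∩ Tᶜ).Nonempty) : (S ∩ frontier T).Nonempty := by
  by_contra hc
  rw [not_nonempty_iff_eq_empty] at hc
  have hsub : S ⊆ interior T ∪ (closure T)ᶜ := by
    intro x hx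
    by_cases hxi : x ∈ interior T
    · exact Or.inl hxi
    · right
      intro hxc
      have : x ∈ S ∩ frontier T := ⟨hx, hxc, hxi⟩
      rw [hc] at this
      exact this
  obtain ⟨a, ha, haT⟩ := h1
  obtain ⟨b, hb, hbT⟩ := h2
  have ha' : (S ∩ interior T).Nonempty := by
    refine ⟨a, ha, ?_⟩
    rcases hsub ha with h | h
    · exact h
    · exact absurd (subset_closure haT) h
  have hb' : (S ∩ (closure T)ᶜ).Nonempty := by
    refine ⟨b, hb, ?_⟩
    rcases hsub hb with h | h
    · exact absurd (interior_subset h) hbT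
    · exact h
  obtain ⟨x, _, hx1, hx2⟩ := hS _ _ isOpen_interior isClosed_closure.isOpen_compl hsub ha' hb'
  exact hx2 (subset_closure (interior_subset hx1))

theorem top (D : ℕ) (hD : 2 ≤ D) : STop D := by
  intro K H H' hH w₀ hw₀ t ht s hs
  by_contra hcon
  push Not at hcon
  set s' : ℝ := max ((s + 1) / 2) (1 / 2) with hs'
  have hs1 : s < s' := lt_of_lt_of_le (by linarith) (le_max_left _ _)
  have hs2 : s' < 1 := max_lt (by linarith) (by norm_num)
  have hs3 : 0 < s' := lt_of_lt_of_le (by norm_num) (le_max_right _ _)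
  have hsub : ball (0 : V D) s' ⊆ ball 0 1 := ball_subset_ball hs2.le
  have hcsub : closedBall (0 : V D) s' ⊆ ball 0 1 := closedBall_subset_ball hs2
  set Ω : Set (V D) := H '' ball 0 s' with hΩ
  have hΩo : IsOpen Ω := image_open hH isOpen_ball isOpen_ball hsub
  have hcomp : IsCompact (H '' closedBall 0 s') :=
    (isCompact_closedBall _ _).image_of_continuousOn ((contOn hH).mono hcsub)
  have hcl : closure Ω ⊆ H '' closedBall 0 s' :=
    closure_minimal (image_mono ball_subset_closedBall) hcomp.isClosed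
  have hfr : frontier Ω ⊆ H '' sphere 0 s' := by
    rintro x ⟨hx1, hx2⟩
    rw [hΩo.interior_eq] at hx2
    obtain ⟨v, hv, rfl⟩ := hcl hx1
    refine ⟨v, ?_, rfl⟩
    rw [mem_sphere]
    rw [mem_closedBall] at hv
    refine le_antisymm hv (not_lt.1 fun h => hx2 ⟨v, mem_ball.2 h, rfl⟩)
  have hrank : 1 < Module.rank ℝ (V D) := by
    rw [← Module.finrank_eq_rank, finrank_euclideanSpace_fin]
    exact_mod_cast hD
  have hSp : IsPreconnected (H '' sphere 0 s') :=
    (isPreconnected_sphere hrank 0 s').image _ ((contOn hH).mono (sphere_subset_closedBall.trans hcsub))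
  -- points of the image of the sphere are not at distance t
  have hno : ∀ x ∈ H '' sphere 0 s', ‖x - H 0‖ ≠ t := by
    rintro _ ⟨v, hv, rfl⟩ he
    obtain ⟨v', hv', he'⟩ := hcon _ he
    rw [mem_closedBall_zero_iff] at hv'
    rw [mem_sphere_zero_iff_norm] at hv
    have h1 : v' = v := hH.inj (by rw [mem_ball_zero_iff]; linarith) (by rw [mem_ball_zero_iff]; linarith) he'
    rw [h1] at hv'
    linarith
  have hH0 : H 0 ∈ Ω := ⟨0, mem_ball_self hs3, rfl⟩
  have hw0 : w₀ ∉ Ω := fun h => hw₀ (image_mono hsub h)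
  -- a point at distance < t
  obtain ⟨p, hp1, hp2⟩ := meets_frontier (T := Ω) (convex_segment (𝕜 := ℝ) (H 0) w₀).isPreconnected
    ⟨H 0, left_mem_segment _ _ _, hH0⟩ ⟨w₀, right_mem_segment _ _ _, hw0⟩
  have hp3 : ‖p - H 0‖ < t := by
    obtain ⟨a, b, ha, hb, hab, rfl⟩ := hp1
    have e : a • H 0 + b • w₀ - H 0 = b • (w₀ - H 0) := by
      have : a = 1 - b := by linarith
      rw [this, sub_smul, one_smul, smul_sub]
      abel
    rw [e, norm_smul, Real.norm_eq_abs, abs_of_nonneg hb]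
    have : b ≤ 1 := by linarith
    nlinarith [norm_nonneg (w₀ - H 0)]
  -- a point at distance > t
  obtain ⟨e, he⟩ : ∃ e : V D, ‖e‖ = 1 := by
    refine ⟨EuclideanSpace.single ⟨0, by omega⟩ 1, ?_⟩
    simp
  obtain ⟨B, hB⟩ := hcomp.isBounded.exists_norm_le
  have ht0 : 0 < t := (norm_nonneg _).trans_lt ht
  have hray : IsPreconnected ((fun r : ℝ => H 0 + r • e) '' Ici t) :=
    isPreconnected_Ici.image _ (by fun_prop)
  have hr1 : H 0 + t • e ∈ Ω := by
    have h1 : ‖H 0 + t • e - H 0‖ = t := by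
      rw [add_sub_cancel_left, norm_smul, he, mul_one, Real.norm_eq_abs, abs_of_pos ht0]
    obtain ⟨v, hv, hv'⟩ := hcon _ h1
    rw [← hv']
    exact ⟨v, by rw [mem_ball_zero_iff]; rw [mem_closedBall_zero_iff] at hv; linarith, rfl⟩
  have hr2 : H 0 + (t + B + ‖H 0‖ + 1) • e ∉ Ω := by
    intro h
    have h1 := hB _ (image_mono ball_subset_closedBall h)
    have h2 : ‖(t + B + ‖H 0‖ + 1) • e‖ ≤ ‖H 0 + (t + B + ‖H 0‖ + 1) • e‖ + ‖H 0‖ := by
      have := norm_sub_le (H 0 + (t + B + ‖H 0‖ + 1) • e) (H 0)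
      rwa [add_sub_cancel_left] at this
    have hB0 : 0 ≤ B := (norm_nonneg _).trans (hB (H 0) (image_mono ball_subset_closedBall hH0))
    rw [norm_smul, he, mul_one, Real.norm_eq_abs, abs_of_pos (by positivity)] at h2
    linarith
  have hB0 : 0 ≤ B := (norm_nonneg _).trans (hB (H 0) (image_mono ball_subset_closedBall hH0))
  obtain ⟨q, hq1, hq2⟩ := meets_frontier (T := Ω) hray ⟨_, ⟨t, self_mem_Ici, rfl⟩, hr1⟩
    ⟨_, ⟨t + B + ‖H 0‖ + 1, by rw [mem_Ici]; linarith [norm_nonneg (H 0)], rfl⟩, hr2⟩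
  have hq3 : t ≤ ‖q - H 0‖ := by
    obtain ⟨r, hr, rfl⟩ := hq1
    rw [mem_Ici] at hr
    rw [add_sub_cancel_left, norm_smul, he, mul_one, Real.norm_eq_abs]
    exact hr.trans (le_abs_self r)
  have hnc : ContinuousOn (fun x : V D => ‖x - H 0‖) (H '' sphere 0 s') := by fun_prop
  obtain ⟨x, hx1, hx2⟩ := hSp.intermediate_value (hfr hp2) (hfr hq2) hnc ⟨hp3.le, hq3⟩
  exact hno x hx1 hx2

end Pool.Agent.Q210.UQ
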