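import Pool.Agent.Q130.UQ.Stm

/-! # Basic facts on the embeddings -/

set_option autoImplicit false

open Metric Set MeasureTheory Filter Topology
open Pool.Agent.Q130.UQ

namespace Pool.Agent.Q210.UQ

variable {D : ℕ} {K : ℝ} {H : V D → V D} {H' : V D → (V D →L[ℝ] V D)} {U : Set (V D)}

lemma strict (h : QCEmb D K H H' U) (hU : IsOpen U) {v : V D} (hv : v ∈ U) :
    HasStrictFDerivAt H (H' v) v := by
  refine hasStrictFDerivAt_of_hasFDerivAt_of_continuousAt ?_ (h.cont.continuousAt (hU.mem_nhds hv))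
  filter_upwards [hU.mem_nhds hv] with y hy
  exact h.deriv y hy

lemma surj (h : QCEmb D K H H' U) {v : V D} (hv : v ∈ U) : Function.Surjective (H' v) :=
  (LinearMap.injective_iff_surjective (f := (H' v : V D →ₗ[ℝ] V D))).1 (h.dinj v hv)

lemma map_nhds (h : QCEmb D K H H' U) (hU : IsOpen U) {v : V D} (hv : v ∈ U) :
    map H (𝓝 v) = 𝓝 (H v) :=
  (strict h hU hv).map_nhds_eq_of_surj (LinearMap.range_eq_top.2 (surj h hv))

lemma image_open (h : QCEmb D K H H' U) (hU : IsOpen U) {W : Set (V D)} (hW : IsOpen W) (hWU : W ⊆ U) :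
    IsOpen (H '' W) := by
  rw [isOpen_iff_mem_nhds]
  rintro _ ⟨v, hv, rfl⟩
  rw [← map_nhds h hU (hWU hv)]
  exact image_mem_map (hW.mem_nhds hv)

lemma contOn (h : QCEmb D K H H' U) : ContinuousOn H U := fun v hv =>
  (h.deriv v hv).continuousAt.continuousWithinAt

end Pool.Agent.Q210.UQ
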