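import Pool.Agent.Q210.UQ.Base

/-! # The Loewner estimate: averages over balls -/

set_option autoImplicit false

open Metric Set MeasureTheory Filter Topology
open Pool.Agent.Q130.UQ

namespace Pool.Agent.Q210.UQ

variable {D : ℕ}

lemma det_smul_id' (D : ℕ) (t : ℝ) : (t • ContinuousLinearMap.id ℝ (V D)).det = t ^ D := by
  show LinearMap.det ((t • ContinuousLinearMap.id ℝ (V D) : V D →L[ℝ] V D) : V D →ₗ[ℝ] V D) = t ^ D
  have e : ((t • ContinuousLinearMap.id ℝ (V D) : V D →L[ℝ] V D) : V D →ₗ[ℝ] V D) = t • LinearMap.id := rfl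
  rw [e, LinearMap.det_smul, LinearMap.det_id, mul_one, finrank_euclideanSpace_fin]

/-- the integral over the unit ball -/
noncomputable def VV (u : V D → ℝ) (p : V D) (s : ℝ) : ℝ := ∫ z in ball (0 : V D) 1, u (p + s • z)

/-- the norm of the derivative -/
noncomputable def gg (u : V D → ℝ) (x : V D) : ℝ := ‖fderiv ℝ u x‖

/-- the energy in a ball -/
noncomputable def EE (u : V D → ℝ) (a : V D) (s : ℝ) : ℝ := ∫ x in ball a s, gg u x ^ D

/-- the volume of the unit ball -/
noncomputable def om (D : ℕ) : ℝ := volume.real (ball (0 : V D) 1)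

lemma om_pos (D : ℕ) : 0 < om D := by
  unfold om
  rw [measureReal_def]
  exact ENNReal.toReal_pos (measure_ball_pos _ _ one_pos).ne' measure_ball_lt_top.ne

lemma gg_cont {u : V D → ℝ} (hu : ContDiff ℝ 1 u) : Continuous (gg u) :=
  (hu.continuous_fderiv one_ne_zero).norm

lemma gg_nonneg (u : V D → ℝ) (x : V D) : 0 ≤ gg u x := norm_nonneg _

lemma int_ball {f : V D → ℝ} (hf : Continuous f) (a : V D) (s : ℝ) : IntegrableOn f (ball a s) :=
  (hf.continuousOn.integrableOn_compact (isCompact_closedBall a s)).mono_set ball_subset_closedBall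

lemma EE_nonneg (u : V D → ℝ) (a : V D) (s : ℝ) : 0 ≤ EE u a s :=
  integral_nonneg fun x => pow_nonneg (gg_nonneg u x) D

instance : IsFiniteMeasure ((volume : Measure (V D)).restrict (ball (0 : V D) 1)) :=
  ⟨by rw [Measure.restrict_apply_univ]; exact measure_ball_lt_top⟩

lemma hasDeriv_path {u : V D → ℝ} (hu : ContDiff ℝ 1 u) (p q : V D) (s0 s1 τ0 : ℝ) :
    HasDerivAt (fun τ : ℝ => VV u (p + τ • q) (s0 + τ * s1))
      (∫ z in ball (0 : V D) 1, fderiv ℝ u ((p + τ0 • q) + (s0 + τ0 * s1) • z) (q + s1 • z)) τ0 := by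
  have hPc : Continuous (fun x : ℝ × V D => (p + x.1 • q) + (s0 + x.1 * s1) • x.2) := by fun_prop
  have hF'c : Continuous (fun x : ℝ × V D =>
      fderiv ℝ u ((p + x.1 • q) + (s0 + x.1 * s1) • x.2) (q + s1 • x.2)) :=
    ((hu.continuous_fderiv one_ne_zero).comp hPc).clm_apply (by fun_prop)
  have hcpt : IsCompact (Icc (τ0 - 1) (τ0 + 1) ×ˢ closedBall (0 : V D) 1) :=
    isCompact_Icc.prod (isCompact_closedBall (0 : V D) 1)
  obtain ⟨C, hC⟩ := hcpt.exists_bound_of_continuousOn hF'c.continuousOn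
  have hsl : ∀ τ : ℝ, Continuous fun z : V D => u ((p + τ • q) + (s0 + τ * s1) • z) := fun τ =>
    hu.continuous.comp (by fun_prop)
  have hsl' : ∀ τ : ℝ, Continuous fun z : V D =>
      fderiv ℝ u ((p + τ • q) + (s0 + τ * s1) • z) (q + s1 • z) := fun τ =>
    hF'c.comp (by fun_prop : Continuous fun z : V D => ((τ, z) : ℝ × V D))
  refine (hasDerivAt_integral_of_dominated_loc_of_deriv_le
    (μ := volume.restrict (ball (0 : V D) 1)) (s := Icc (τ0 - 1) (τ0 + 1)) (bound := fun _ => C)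
    (F := fun τ z => u ((p + τ • q) + (s0 + τ * s1) • z))
    (F' := fun τ z => fderiv ℝ u ((p + τ • q) + (s0 + τ * s1) • z) (q + s1 • z))
    (Icc_mem_nhds (by linarith) (by linarith)) ?_ ?_ ?_ ?_ ?_ ?_).2
  · exact Eventually.of_forall fun τ => (hsl τ).aestronglyMeasurable
  · exact int_ball (hsl τ0) 0 1
  · exact (hsl' τ0).aestronglyMeasurable
  · refine (ae_restrict_iff' measurableSet_ball).2 (Eventually.of_forall fun z hz τ hτ => ?_)
    exact hC (τ, z) ⟨hτ, ball_subset_closedBall hz⟩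
  · exact integrable_const C
  · refine Eventually.of_forall fun z τ _ => ?_
    have h1 : HasDerivAt (fun τ : ℝ => (p + τ • q) + (s0 + τ * s1) • z) (q + s1 • z) τ := by
      have h2 : HasDerivAt (fun τ : ℝ => p + τ • q) q τ := by
        have := ((hasDerivAt_id τ).smul_const q).const_add p
        simpa using this
      have h3 : HasDerivAt (fun τ : ℝ => (s0 + τ * s1) • z) (s1 • z) τ := by
        have h4 : HasDerivAt (fun τ : ℝ => s0 + τ * s1) s1 τ := by
          have := ((hasDerivAt_id τ).mul_const s1).const_add s0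
          simpa using this
        exact h4.smul_const z
      exact h2.add h3
    exact ((hu.differentiable one_ne_zero) _).hasFDerivAt.comp_hasDerivAt τ h1

/-- change of variables -/
lemma cov {f : V D → ℝ} (a : V D) {s : ℝ} (hs : 0 < s) :
    ∫ z in ball (0 : V D) 1, f (a + s • z) = (s ^ D)⁻¹ * ∫ x in ball a s, f x := by
  have himg : (fun z : V D => a + s • z) '' ball 0 1 = ball a s := by
    ext x
    constructor
    · rintro ⟨z, hz, rfl⟩
      rw [mem_ball_zero_iff] at hz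
      rw [mem_ball, dist_eq_norm, add_sub_cancel_left, norm_smul, Real.norm_eq_abs, abs_of_pos hs]
      nlinarith
    · intro hx
      rw [mem_ball, dist_eq_norm] at hx
      refine ⟨s⁻¹ • (x - a), ?_, ?_⟩
      · rw [mem_ball_zero_iff, norm_smul, norm_inv, Real.norm_eq_abs, abs_of_pos hs, inv_mul_lt_iff₀ hs]
        linarith
      · show a + s • s⁻¹ • (x - a) = x
        rw [smul_smul, mul_inv_cancel₀ hs.ne', one_smul]
        abel
  have hinj : InjOn (fun z : V D => a + s • z) (ball 0 1) := by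
    intro x _ y _ hxy
    exact smul_right_injective _ hs.ne' (add_left_cancel hxy)
  have h := integral_image_eq_integral_abs_det_fderiv_smul (volume : Measure (V D)) measurableSet_ball
    (f := fun z : V D => a + s • z) (f' := fun _ => s • ContinuousLinearMap.id ℝ (V D))
    (fun x _ => (((hasFDerivAt_id x).const_smul s).const_add a).hasFDerivWithinAt) hinj f
  rw [himg] at h
  rw [h]
  simp only [det_smul_id', abs_of_pos (pow_pos hs D), smul_eq_mul]
  rw [integral_const_mul, ← mul_assoc, inv_mul_cancel₀ (by positivity), one_mul]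

lemma young {x δ : ℝ} (hx : 0 ≤ x) (hδ : 0 < δ) (n : ℕ) : x ≤ δ + δ⁻¹ ^ n * x ^ (n + 1) := by
  rcases le_total x δ with h | h
  · have : 0 ≤ δ⁻¹ ^ n * x ^ (n + 1) := by positivity
    linarith
  · have h1 : 1 ≤ (δ⁻¹ * x) ^ n := by
      apply one_le_pow₀
      rw [← div_eq_inv_mul, le_div_iff₀ hδ]
      linarith
    have h2 : x * 1 ≤ x * (δ⁻¹ * x) ^ n := mul_le_mul_of_nonneg_left h1 hx
    have e : x * (δ⁻¹ * x) ^ n = δ⁻¹ ^ n * x ^ (n + 1) := by rw [mul_pow]; ring
    linarith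

/-- averages of the norm of the derivative -/
lemma avg_bound {n : ℕ} (hD : D = n + 1) {u : V D → ℝ} (hu : ContDiff ℝ 1 u) (a : V D) {s δ : ℝ} (hs : 0 < s)
    (hδ : 0 < δ) :
    ∫ z in ball (0 : V D) 1, gg u (a + s • z) ≤ δ * om D + δ⁻¹ ^ n * ((s ^ D)⁻¹ * EE u a s) := by
  have hg := gg_cont hu
  have hc : Continuous fun z : V D => gg u (a + s • z) := hg.comp (by fun_prop)
  have h1 : ∫ z in ball (0 : V D) 1, gg u (a + s • z) ≤
      ∫ z in ball (0 : V D) 1, (δ + δ⁻¹ ^ n * gg u (a + s • z) ^ D) := by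
    refine integral_mono (int_ball hc 0 1) (int_ball (by fun_prop) 0 1) fun z => ?_
    have := young (gg_nonneg u (a + s • z)) hδ n
    rw [← hD] at this
    exact this
  refine h1.trans (le_of_eq ?_)
  rw [integral_add (integrable_const _) ((int_ball (by fun_prop) 0 1)), integral_const_mul,
    cov (f := fun x => gg u x ^ D) a hs]
  congr 1
  rw [setIntegral_const, smul_eq_mul, mul_comm]
  rfl

/-- the mean value lemma -/
lemma mean_value {n : ℕ} (hD : D = n + 1) {u : V D → ℝ} (hu : ContDiff ℝ 1 u) (a : V D) {r κ β : ℝ}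
    (hr0 : 0 < r) (hr1 : r ≤ 1) (hκ : 0 < κ) (hβ : β ≤ κ ^ D) (hE : ∀ s, 0 < s → s ≤ r → EE u a s ≤ β * s) :
    |VV u a r - om D * u a| ≤ κ * (om D + 1) * D := by
  have hω := om_pos D
  have hD0 : (0 : ℝ) < D := by rw [hD]; positivity
  set Φ : ℝ → ℝ := fun s => VV u a s with hΦ
  have hder : ∀ s : ℝ, HasDerivAt Φ (∫ z in ball (0 : V D) 1, fderiv ℝ u (a + s • z) z) s := by
    intro s
    have h := hasDeriv_path hu a 0 0 1 s
    simpa using h
  have hbd : ∀ s : ℝ, |∫ z in ball (0 : V D) 1, fderiv ℝ u (a + s • z) z| ≤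
      ∫ z in ball (0 : V D) 1, gg u (a + s • z) := by
    intro s
    rw [← Real.norm_eq_abs]
    refine norm_integral_le_of_norm_le (int_ball ((gg_cont hu).comp (by fun_prop)) 0 1) ?_
    refine (ae_restrict_iff' measurableSet_ball).2 (Eventually.of_forall fun z hz => ?_)
    rw [mem_ball_zero_iff] at hz
    exact ((fderiv ℝ u (a + s • z)).le_opNorm z).trans (mul_le_of_le_one_right (norm_nonneg _) hz.le)
  have hmain : ∀ s, 0 < s → s ≤ r → ∫ z in ball (0 : V D) 1, gg u (a + s • z) ≤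
      κ * (om D + 1) * (s ^ (1 / (D : ℝ) - 1)) := by
    intro s hs hsr
    set y : ℝ := s ^ (1 / (D : ℝ)) with hy
    have hy0 : 0 < y := Real.rpow_pos_of_pos hs _
    have hyD : y ^ D = s := by
      rw [hy, ← Real.rpow_natCast, ← Real.rpow_mul hs.le, one_div, inv_mul_cancel₀ hD0.ne', Real.rpow_one]
    have e1 : s ^ (1 / (D : ℝ) - 1) = (y ^ n)⁻¹ := by
      rw [Real.rpow_sub_one hs.ne', ← hy]
      nth_rewrite 1 [← hyD]
      rw [hD, pow_succ]
      field_simp
    have hδ : 0 < κ * (y ^ n)⁻¹ := by positivity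
    have h1 := avg_bound hD hu a hs hδ
    have h2 : EE u a s ≤ κ ^ D * s := (hE s hs hsr).trans (mul_le_mul_of_nonneg_right hβ hs.le)
    have h3 : (κ * (y ^ n)⁻¹)⁻¹ ^ n * ((s ^ D)⁻¹ * EE u a s) ≤
        (κ * (y ^ n)⁻¹)⁻¹ ^ n * ((s ^ D)⁻¹ * (κ ^ D * s)) := by gcongr
    have h4 : (κ * (y ^ n)⁻¹)⁻¹ ^ n * ((s ^ D)⁻¹ * (κ ^ D * s)) = κ * (y ^ n)⁻¹ := by
      rw [← hyD, hD, mul_inv, inv_inv, mul_pow, inv_pow]
      field_simp
      ring
    rw [e1]
    calc _ ≤ κ * (y ^ n)⁻¹ * om D + (κ * (y ^ n)⁻¹)⁻¹ ^ n * ((s ^ D)⁻¹ * EE u a s) := h1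
      _ ≤ κ * (y ^ n)⁻¹ * om D + κ * (y ^ n)⁻¹ := by linarith
      _ = _ := by ring
  set Ψ : ℝ → ℝ := fun s => κ * (om D + 1) * D * s ^ (1 / (D : ℝ)) with hΨ
  have hΨd : ∀ s, 0 < s → HasDerivAt Ψ (κ * (om D + 1) * (s ^ (1 / (D : ℝ) - 1))) s := by
    intro s hs
    have h := (Real.hasDerivAt_rpow_const (x := s) (p := 1 / (D : ℝ)) (Or.inl hs.ne')).const_mul
      (κ * (om D + 1) * D)
    refine h.congr_deriv ?_
    field_simp
  have hΨc : Continuous Ψ := by
    have : Continuous fun s : ℝ => s ^ (1 / (D : ℝ)) := Real.continuous_rpow_const (by positivity)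
    exact continuous_const.mul this
  have hΦc : Continuous Φ := continuous_iff_continuousAt.2 fun s => (hder s).continuousAt
  have hint : interior (Icc (0 : ℝ) r) = Ioo 0 r := interior_Icc
  have m1 : MonotoneOn (fun s => Ψ s - Φ s) (Icc 0 r) := by
    refine monotoneOn_of_deriv_nonneg (convex_Icc _ _) (hΨc.sub hΦc).continuousOn ?_ ?_
    · intro s hs
      rw [hint] at hs
      exact ((hΨd s hs.1).sub (hder s)).differentiableAt.differentiableWithinAt
    · intro s hs
      rw [hint] at hs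
      have hd : HasDerivAt (fun s => Ψ s - Φ s) _ s := (hΨd s hs.1).sub (hder s)
      rw [hd.deriv]
      have h1 := (abs_le.1 ((hbd s).trans (hmain s hs.1 hs.2.le))).2
      linarith
  have m2 : MonotoneOn (fun s => Ψ s + Φ s) (Icc 0 r) := by
    refine monotoneOn_of_deriv_nonneg (convex_Icc _ _) (hΨc.add hΦc).continuousOn ?_ ?_
    · intro s hs
      rw [hint] at hs
      exact ((hΨd s hs.1).add (hder s)).differentiableAt.differentiableWithinAt
    · intro s hs
      rw [hint] at hs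
      have hd : HasDerivAt (fun s => Ψ s + Φ s) _ s := (hΨd s hs.1).add (hder s)
      rw [hd.deriv]
      have h1 := (abs_le.1 ((hbd s).trans (hmain s hs.1 hs.2.le))).1
      linarith
  have h0 : (0 : ℝ) ∈ Icc (0 : ℝ) r := ⟨le_rfl, hr0.le⟩
  have h1 : r ∈ Icc (0 : ℝ) r := ⟨hr0.le, le_rfl⟩
  have a1 := m1 h0 h1 hr0.le
  have a2 := m2 h0 h1 hr0.le
  have hΨ0 : Ψ 0 = 0 := by
    simp only [hΨ]
    rw [Real.zero_rpow (by positivity), mul_zero]
  have hΨr : Ψ r ≤ κ * (om D + 1) * D := by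
    simp only [hΨ]
    have : r ^ (1 / (D : ℝ)) ≤ 1 := Real.rpow_le_one hr0.le hr1 (by positivity)
    exact mul_le_of_le_one_right (by positivity) this
  have hΦ0 : Φ 0 = om D * u a := by
    simp only [hΦ, VV, zero_smul, add_zero]
    rw [setIntegral_const, smul_eq_mul]
    rfl
  simp only [hΨ0] at a1 a2
  rw [← hΦ0, abs_le]
  show -(κ * (om D + 1) * D) ≤ Φ r - Φ 0 ∧ Φ r - Φ 0 ≤ κ * (om D + 1) * D
  constructor <;> linarith

/-- moving the centre -/
lemma move {n : ℕ} (hD : D = n + 1) {u : V D → ℝ} (hu : ContDiff ℝ 1 u) (a b : V D) {r δ M : ℝ}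
    (hr0 : 0 < r) (hδ : 0 < δ) (hM : ∀ τ ∈ Icc (0 : ℝ) 1, EE u (a + τ • (b - a)) r ≤ M) :
    |VV u b r - VV u a r| ≤ ‖b - a‖ * (δ * om D + δ⁻¹ ^ n * ((r ^ D)⁻¹ * M)) := by
  set χ : ℝ → ℝ := fun τ => VV u (a + τ • (b - a)) r with hχ
  have hder : ∀ τ : ℝ, HasDerivAt χ
      (∫ z in ball (0 : V D) 1, fderiv ℝ u ((a + τ • (b - a)) + r • z) (b - a)) τ := by
    intro τ
    have h := hasDeriv_path hu a (b - a) r 0 τ
    simpa using h
  have h := norm_image_sub_le_of_norm_deriv_le_segment_01' (f := χ)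
    (C := ‖b - a‖ * (δ * om D + δ⁻¹ ^ n * ((r ^ D)⁻¹ * M))) (fun τ _ => (hder τ).hasDerivWithinAt) ?_
  · have e1 : χ 1 = VV u b r := by simp only [hχ]; rw [one_smul, add_sub_cancel]
    have e0 : χ 0 = VV u a r := by simp only [hχ]; rw [zero_smul, add_zero]
    rw [e1, e0, Real.norm_eq_abs] at h
    exact h
  · intro τ hτ
    have h1 : ‖∫ z in ball (0 : V D) 1, fderiv ℝ u ((a + τ • (b - a)) + r • z) (b - a)‖ ≤
        ∫ z in ball (0 : V D) 1, gg u ((a + τ • (b - a)) + r • z) * ‖b - a‖ := by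
      refine norm_integral_le_of_norm_le
        (int_ball (((gg_cont hu).comp (by fun_prop)).mul continuous_const) 0 1) ?_
      exact Eventually.of_forall fun z => (fderiv ℝ u _).le_opNorm _
    refine h1.trans ?_
    rw [integral_mul_const, mul_comm]
    refine mul_le_mul_of_nonneg_left ?_ (norm_nonneg _)
    refine (avg_bound hD hu _ hr0 hδ).trans ?_
    have h2 := hM τ ⟨hτ.1, hτ.2.le⟩
    gcongr

end Pool.Agent.Q210.UQ
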